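import Pool.Agent.Mg.F4faeaf.Geaf4d7

open Pool.Agent.MP_c6cf52_lc Pool.Agent.MP_4faeaf_lc

universe u

theorem Pool.Agent.Results.MP_4faeaf_lc.PrecipNoWin.result (X : Type u) [Uncountable X]
    (U : Ultrafilter X) (hU : CardinalInterFilter (U : Filter X) (Cardinal.mk X))
    (np : ∀ x, {x} ∉ U) :
    ∃ (M : Type (u + 1)) (E : M → M → Prop), Countable M ∧ WellFounded E ∧ IsZFC E ∧
      ∃ w w1 w2 I, IsOmega E w ∧ IsSuccCard E w w1 ∧ IsSuccCard E w1 w2 ∧ CH E w w1 ∧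
        IsIdeal E I w2 ∧ Precipitous E I w2 ∧ ¬ ChooseWins E w w2 :=
  main X U hU np
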