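import Pool.Agent.MP_4faeaf_lc.Conv.Main

open Cardinal Pool.Agent.MP_e34318_lc Pool.Agent.MP_4faeaf_lc.Conv

theorem Pool.Agent.Results.MP_4faeaf_lc.WinPrecip.result (κ : Cardinal.{0})
    (hw : ChooseWins κ.ord.ToType) :
    ∃ μ, IsLeast {ν : Cardinal.{0} | Survives ν.ord.ToType} μ ∧ 𝔠 < μ ∧ μ ≤ κ ∧
      ((∃ ν < μ, Order.succ μ < 2 ^ ν) ∨ ∃ F : Filter μ.ord.ToType,
        F.NeBot ∧ CardinalInterFilter F μ ∧ (∀ x, {x}ᶜ ∈ F) ∧ Precipitous F ∧ NonemptyWins F ∧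
          (2 ^ μ = Order.succ μ → IsNormal F)) :=
  main κ hw
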